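import Mathlib

/-!
Interval exchanges with flips of the circle, as permutations, and measure preserving
permutations of the circle.
-/

namespace Pool.Agent.Q297.IF

open MeasureTheory Filter Topology Set

/-- The circle `ℝ / ℤ` with Lebesgue measure. -/
abbrev SS : Type := UnitAddCircle

/-- Near the point `x`, the map `f` has the form `y ↦ y + c` or `y ↦ -y + c`. -/
def LocIso (f : SS → SS) (x : SS) : Prop :=
  ∃ c : SS, (∀ᶠ y in 𝓝 x, f y = y + c) ∨ (∀ᶠ y in 𝓝 x, f y = -y + c)

/-- The two kinds of isometries. -/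
noncomputable def tr (s : Bool) (c : SS) : SS ≃ₜ SS :=
  if s then Homeomorph.addRight c else (Homeomorph.neg SS).trans (Homeomorph.addRight c)

theorem tr_true (c y : SS) : tr true c y = y + c := rfl

theorem tr_false (c y : SS) : tr false c y = -y + c := rfl

theorem locIso_iff (f : SS → SS) (x : SS) : LocIso f x ↔ ∃ s c, f =ᶠ[𝓝 x] tr s c := by
  constructor
  · rintro ⟨c, h | h⟩
    · exact ⟨true, c, h⟩
    · exact ⟨false, c, h⟩
  · rintro ⟨s, c, h⟩
    cases s
    · exact ⟨c, Or.inr h⟩
    · exact ⟨c, Or.inl h⟩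

theorem tr_tr (s s' : Bool) (c c' : SS) : ∃ s'' c'', ∀ y, tr s c (tr s' c' y) = tr s'' c'' y := by
  cases s <;> cases s'
  · refine ⟨true, c - c', fun y => ?_⟩
    simp only [tr_true, tr_false]
    abel
  · refine ⟨false, c - c', fun y => ?_⟩
    simp only [tr_true, tr_false]
    abel
  · refine ⟨false, c' + c, fun y => ?_⟩
    simp only [tr_true, tr_false]
    abel
  · refine ⟨true, c' + c, fun y => ?_⟩
    simp only [tr_true]
    abel

theorem tr_symm (s : Bool) (c : SS) : ∃ s' c', ∀ y, (tr s c).symm y = tr s' c' y := by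
  cases s
  · refine ⟨false, c, fun y => ?_⟩
    rw [Homeomorph.symm_apply_eq]
    simp only [tr_false]
    abel
  · refine ⟨true, -c, fun y => ?_⟩
    rw [Homeomorph.symm_apply_eq]
    simp only [tr_true]
    abel

theorem LocIso.comp {f g : SS → SS} {x : SS} (hg : LocIso g x) (hf : LocIso f (g x)) :
    LocIso (fun y => f (g y)) x := by
  rw [locIso_iff] at *
  obtain ⟨s', c', hg⟩ := hg
  obtain ⟨s, c, hf⟩ := hf
  obtain ⟨s'', c'', h⟩ := tr_tr s s' c c'
  refine ⟨s'', c'', ?_⟩
  have hcont : Tendsto g (𝓝 x) (𝓝 (g x)) := by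
    have h1 : Tendsto (tr s' c') (𝓝 x) (𝓝 (tr s' c' x)) := (tr s' c').continuous.tendsto x
    rw [hg.eq_of_nhds]
    exact h1.congr' hg.symm
  filter_upwards [hg, hcont.eventually hf] with y h1 h2
  rw [h2, h1, h]

theorem LocIso.symm {f : Equiv.Perm SS} {y : SS} (hf : LocIso f y) : LocIso f.symm (f y) := by
  rw [locIso_iff] at *
  obtain ⟨s, c, hf⟩ := hf
  obtain ⟨s', c', h⟩ := tr_symm s c
  refine ⟨s', c', ?_⟩
  have h0 : f y = tr s c y := hf.eq_of_nhds
  have hcont : Tendsto (tr s c).symm (𝓝 (f y)) (𝓝 y) := by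
    have h1 := (tr s c).symm.continuous.tendsto (f y)
    rw [h0, Homeomorph.symm_apply_apply] at h1
    rw [h0]
    exact h1
  filter_upwards [hcont.eventually hf] with w hw
  rw [Equiv.symm_apply_eq, ← h w, hw, Homeomorph.apply_symm_apply]

/-- The permutations of the circle that are piecewise isometric: outside a finite set they
have locally the form `y ↦ y + c` or `y ↦ -y + c`.  (They are the representatives of the
interval exchanges with flips.) -/
def IETrep : Subgroup (Equiv.Perm SS) where
  carrier := {f | ∃ F : Set SS, F.Finite ∧ ∀ x, x ∉ F → LocIso f x}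
  mul_mem' := by
    rintro f g ⟨F, hF, hf⟩ ⟨G, hG, hg⟩
    refine ⟨G ∪ g ⁻¹' F, hG.union (hF.preimage g.injective.injOn), ?_⟩
    intro x hx
    rw [mem_union, not_or] at hx
    exact (hg x hx.1).comp (hf (g x) hx.2)
  one_mem' := by
    refine ⟨∅, finite_empty, fun x _ => ⟨0, Or.inl ?_⟩⟩
    refine Eventually.of_forall fun y => ?_
    simp
  inv_mem' := by
    rintro f ⟨F, hF, hf⟩
    refine ⟨f '' F, hF.image f, ?_⟩
    intro x hx
    have h1 : f.symm x ∉ F := fun h => hx ⟨_, h, by simp⟩
    have h2 := (hf _ h1).symm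
    rw [Equiv.apply_symm_apply] at h2
    exact h2

/-- The finitely supported permutations of the circle. -/
def FinS : Subgroup (Equiv.Perm SS) where
  carrier := {f | {x | f x ≠ x}.Finite}
  mul_mem' := by
    intro f g hf hg
    refine (hf.union hg).subset ?_
    intro x hx
    by_contra h
    rw [mem_union, not_or] at h
    have h1 : f x = x := by
      by_contra h1
      exact h.1 h1
    have h2 : g x = x := by
      by_contra h2
      exact h.2 h2
    apply hx
    show f (g x) = x
    rw [h2, h1]
  one_mem' := by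
    simp
  inv_mem' := by
    intro f hf
    refine hf.subset ?_
    intro x hx hfx
    apply hx
    show f.symm x = x
    rw [Equiv.symm_apply_eq]
    exact hfx.symm

instance : FinS.Normal where
  conj_mem := by
    intro f hf g
    have h : {x | (g * f * g⁻¹) x ≠ x} ⊆ g '' {x | f x ≠ x} := by
      intro x hx
      refine ⟨g.symm x, ?_, by simp⟩
      intro h1
      apply hx
      show g (f (g.symm x)) = x
      rw [h1, Equiv.apply_symm_apply]
    exact (hf.image g).subset h

/-- `f` is Lebesgue measurable and preserves Lebesgue measure. (The Lebesgue measurable sets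
are the null measurable sets for `volume`.) -/
def MP (f : SS → SS) : Prop :=
  ∀ A : Set SS, NullMeasurableSet A volume →
    NullMeasurableSet (f ⁻¹' A) volume ∧ volume (f ⁻¹' A) = volume A

/-- The group of all permutations of the circle that are Lebesgue measurable with Lebesgue
measurable inverse and preserve Lebesgue measure. -/
def Ghat : Subgroup (Equiv.Perm SS) where
  carrier := {f | MP f ∧ MP f.symm}
  mul_mem' := by
    rintro f g ⟨hf, hf'⟩ ⟨hg, hg'⟩
    constructor
    · intro A hA
      have h1 := hf A hA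
      have h2 := hg _ h1.1
      exact ⟨h2.1, h2.2.trans h1.2⟩
    · intro A hA
      have h1 := hg' A hA
      have h2 := hf' _ h1.1
      exact ⟨h2.1, h2.2.trans h1.2⟩
  one_mem' := ⟨fun A hA => ⟨hA, rfl⟩, fun A hA => ⟨hA, rfl⟩⟩
  inv_mem' := by
    rintro f ⟨hf, hf'⟩
    exact ⟨hf', hf⟩

theorem MP.congr {f g : SS → SS} (hf : MP f) (h : ∀ᵐ x ∂(volume : Measure SS), f x = g x) :
    MP g := by
  intro A hA
  have h1 := hf A hA
  have h2 : f ⁻¹' A =ᵐ[volume] g ⁻¹' A := by
    filter_upwards [h] with x hx
    show (f x ∈ A) = (g x ∈ A)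
    rw [hx]
  exact ⟨h1.1.congr h2, (measure_congr h2).symm.trans h1.2⟩

theorem tr_mp (s : Bool) (c : SS) : MeasurePreserving (tr s c) volume volume := by
  have h1 : MeasurePreserving (fun y : SS => y + c) volume volume :=
    measurePreserving_add_right volume c
  cases s
  · have h2 : MeasurePreserving (fun y : SS => -y) volume volume :=
      Measure.measurePreserving_neg volume
    exact h1.comp h2
  · exact h1

end Pool.Agent.Q297.IF
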