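import Pool.Agent.Q297.IF.Meas

/-!
Cardinalities: the circle, the interval exchanges with flips, and a null set of the size of
the continuum.
-/

namespace Pool.Agent.Q297.IF

open MeasureTheory Filter Topology Set Cardinal Pointwise

theorem fact01 : Fact ((0 : ℝ) < 1) := ⟨one_pos⟩

theorem mk_SS : #SS = 𝔠 := by
  have h := fact01
  have e : SS ≃ Ioc (0 : ℝ) (0 + 1) := AddCircle.equivIoc 1 0
  rw [Cardinal.mk_congr e]
  exact Cardinal.mk_Ioc_real (by norm_num)

instance : Infinite SS := by
  rw [Cardinal.infinite_iff, mk_SS]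
  exact aleph0_le_continuum

theorem LocIso.continuousAt {f : SS → SS} {x : SS} (h : LocIso f x) : ContinuousAt f x := by
  obtain ⟨s, c, h⟩ := (locIso_iff f x).mp h
  exact (tr s c).continuous.continuousAt.congr h.symm

theorem mk_iet : #IETrep ≤ 𝔠 := by
  classical
  have hF : ∀ f : IETrep, ∃ F : Finset SS, ∀ x, x ∉ F → LocIso (f : Equiv.Perm SS) x := by
    intro f
    obtain ⟨F, hF, h⟩ := f.2
    exact ⟨hF.toFinset, fun x hx => h x (by simpa using hx)⟩
  choose F hF using hF
  let Ψ : IETrep → (ℕ → SS) × Finset (SS × SS) := fun f =>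
    (fun n => (f : Equiv.Perm SS) (TopologicalSpace.denseSeq SS n),
      (F f).image fun x => (x, (f : Equiv.Perm SS) x))
  have hΨ : Function.Injective Ψ := by
    intro f g h
    have h1 : ∀ n, (f : Equiv.Perm SS) (TopologicalSpace.denseSeq SS n) =
        (g : Equiv.Perm SS) (TopologicalSpace.denseSeq SS n) := fun n =>
      congrFun (congrArg Prod.fst h) n
    have h2 : (F f).image (fun x => (x, (f : Equiv.Perm SS) x)) =
        (F g).image (fun x => (x, (g : Equiv.Perm SS) x)) := congrArg Prod.snd h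
    have h3 : ∀ x ∈ F f, x ∈ F g ∧ (f : Equiv.Perm SS) x = (g : Equiv.Perm SS) x := by
      intro x hx
      have h4 : (x, (f : Equiv.Perm SS) x) ∈
          (F f).image (fun x => (x, (f : Equiv.Perm SS) x)) :=
        Finset.mem_image.mpr ⟨x, hx, rfl⟩
      rw [h2] at h4
      obtain ⟨y, hy, hyx⟩ := Finset.mem_image.mp h4
      have h5 : y = x := congrArg Prod.fst hyx
      have h6 : (g : Equiv.Perm SS) y = (f : Equiv.Perm SS) x := congrArg Prod.snd hyx
      rw [h5] at hy h6
      exact ⟨hy, h6.symm⟩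
    have h3' : ∀ x ∈ F g, x ∈ F f := by
      intro x hx
      have h4 : (x, (g : Equiv.Perm SS) x) ∈
          (F g).image (fun x => (x, (g : Equiv.Perm SS) x)) :=
        Finset.mem_image.mpr ⟨x, hx, rfl⟩
      rw [← h2] at h4
      obtain ⟨y, hy, hyx⟩ := Finset.mem_image.mp h4
      have h5 : y = x := congrArg Prod.fst hyx
      rw [h5] at hy
      exact hy
    refine Subtype.ext (Equiv.ext fun x => ?_)
    by_cases hx : x ∈ F f
    · exact (h3 x hx).2
    · have hx' : x ∉ F g := fun h => hx (h3' x h)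
      have c1 : Tendsto (f : Equiv.Perm SS) (𝓝 x) (𝓝 ((f : Equiv.Perm SS) x)) :=
        (hF f x hx).continuousAt
      have c2 : Tendsto (g : Equiv.Perm SS) (𝓝 x) (𝓝 ((g : Equiv.Perm SS) x)) :=
        (hF g x hx').continuousAt
      have hne : (𝓝[range (TopologicalSpace.denseSeq SS)] x).NeBot :=
        mem_closure_iff_nhdsWithin_neBot.mp (TopologicalSpace.denseRange_denseSeq SS x)
      have h7 : (f : Equiv.Perm SS) =ᶠ[𝓝[range (TopologicalSpace.denseSeq SS)] x]
          (g : Equiv.Perm SS) := by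
        filter_upwards [self_mem_nhdsWithin] with y hy
        obtain ⟨n, rfl⟩ := hy
        exact h1 n
      exact tendsto_nhds_unique ((c1.mono_left nhdsWithin_le_nhds).congr' h7)
        (c2.mono_left nhdsWithin_le_nhds)
  refine (Cardinal.mk_le_of_injective hΨ).trans ?_
  rw [Cardinal.mk_prod, Cardinal.mk_finset_of_infinite, Cardinal.mk_prod, Cardinal.mk_arrow]
  simp only [Cardinal.lift_id]
  rw [mk_SS, Cardinal.mk_nat, Cardinal.continuum_power_aleph0,
    Cardinal.continuum_mul_self, Cardinal.continuum_mul_self]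

theorem cantor_null : volume (range (cantorFunction (1 / 4))) = 0 := by
  set K := range (cantorFunction (1 / 4)) with hK
  have hb : ∀ f : ℕ → Bool, 0 ≤ cantorFunction (1 / 4) f ∧ cantorFunction (1 / 4) f ≤ 2 := by
    intro f
    constructor
    · exact tsum_nonneg fun n => cantorFunctionAux_nonneg (by norm_num)
    · have h1 : cantorFunction (1 / 4) f ≤ cantorFunction (1 / 4) (fun _ => true) :=
        cantorFunction_le (by norm_num) (by norm_num) (fun n _ => rfl)
      have h2 : cantorFunction (1 / 4) (fun _ => true) =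
          1 + 1 / 4 * cantorFunction (1 / 4) (fun _ => true) := by
        have := cantorFunction_succ (c := 1 / 4) (fun _ => true) (by norm_num) (by norm_num)
        simpa using this
      linarith
  have hfin : volume K ≠ ⊤ := by
    have h1 : K ⊆ Icc 0 2 := by
      rintro _ ⟨f, rfl⟩
      exact hb f
    have h2 : volume K ≤ volume (Icc (0 : ℝ) 2) := measure_mono h1
    rw [Real.volume_Icc] at h2
    exact (h2.trans_lt ENNReal.ofReal_lt_top).ne
  have hsub : K ⊆ ((1 / 4 : ℝ) • K) ∪ ((fun y => 1 + y) '' ((1 / 4 : ℝ) • K)) := by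
    rintro _ ⟨f, rfl⟩
    rw [cantorFunction_succ f (by norm_num) (by norm_num)]
    cases hf : f 0
    · left
      simp only [cond_false, zero_add]
      exact ⟨_, ⟨_, rfl⟩, rfl⟩
    · right
      simp only [cond_true]
      exact ⟨_, ⟨_, ⟨_, rfl⟩, rfl⟩, rfl⟩
  have hs : volume ((1 / 4 : ℝ) • K) = ENNReal.ofReal (1 / 4) * volume K := by
    have := Measure.addHaar_smul volume (1 / 4 : ℝ) K
    rw [this]
    congr 2
    simp
  have ht : volume ((fun y : ℝ => 1 + y) '' ((1 / 4 : ℝ) • K)) =
      ENNReal.ofReal (1 / 4) * volume K := by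
    rw [image_add_left, measure_preimage_add, hs]
  have hle : volume K ≤ ENNReal.ofReal (1 / 4) * volume K + ENNReal.ofReal (1 / 4) * volume K := by
    calc volume K ≤ _ := measure_mono hsub
      _ ≤ _ := measure_union_le _ _
      _ = _ := by rw [hs, ht]
  have h1 : (volume K).toReal ≤ 1 / 4 * (volume K).toReal + 1 / 4 * (volume K).toReal := by
    have h2 := ENNReal.toReal_mono (ENNReal.add_ne_top.mpr
      ⟨ENNReal.mul_ne_top ENNReal.ofReal_ne_top hfin,
        ENNReal.mul_ne_top ENNReal.ofReal_ne_top hfin⟩) hle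
    rw [ENNReal.toReal_add (ENNReal.mul_ne_top ENNReal.ofReal_ne_top hfin)
      (ENNReal.mul_ne_top ENNReal.ofReal_ne_top hfin), ENNReal.toReal_mul,
      ENNReal.toReal_ofReal (by norm_num)] at h2
    exact h2
  have h3 : 0 ≤ (volume K).toReal := ENNReal.toReal_nonneg
  have h4 : (volume K).toReal = 0 := by linarith
  rcases (ENNReal.toReal_eq_zero_iff _).mp h4 with h5 | h5
  · exact h5
  · exact absurd h5 hfin

theorem exists_null : ∃ C : Set SS, volume C = 0 ∧ #C = 𝔠 := by
  have hfact := fact01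
  obtain ⟨t, hKt, htm, ht0⟩ :=
    exists_measurable_superset_of_null cantor_null
  -- a scaled copy inside `(0, 1]`
  let φ : ℝ → ℝ := fun y => (y - 1 / 4) * 4
  have hφ : Measurable φ := by fun_prop
  have hT : volume (φ ⁻¹' t) = 0 := by
    have h1 : φ ⁻¹' t = (fun y => y - 1 / 4) ⁻¹' ((fun y => y * 4) ⁻¹' t) := rfl
    have h2 : volume ((fun y : ℝ => y * 4) ⁻¹' t) = 0 := by
      rw [Real.volume_preimage_mul_right (by norm_num), ht0, mul_zero]
    rw [h1]
    have h3 : (fun y : ℝ => y - 1 / 4) ⁻¹' ((fun y => y * 4) ⁻¹' t) =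
        (fun y : ℝ => y + (-(1 / 4))) ⁻¹' ((fun y => y * 4) ⁻¹' t) := by
      ext y
      simp [sub_eq_add_neg]
    rw [h3, measure_preimage_add_right, h2]
  have hE : Measurable (fun x : SS => ((AddCircle.equivIoc (1 : ℝ) 0 x : Ioc (0 : ℝ) (0 + 1)) : ℝ)) :=
    measurable_subtype_coe.comp (AddCircle.measurableEquivIoc (1 : ℝ) 0).measurable
  let C : Set SS := (fun x : SS =>
    ((AddCircle.equivIoc (1 : ℝ) 0 x : Ioc (0 : ℝ) (0 + 1)) : ℝ)) ⁻¹' (φ ⁻¹' t)
  have hCm : MeasurableSet C := hE (hφ htm)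
  refine ⟨C, ?_, ?_⟩
  · have h1 := AddCircle.add_projection_respects_measure (1 : ℝ) 0 hCm
    have h2 : (QuotientAddGroup.mk ⁻¹' C : Set ℝ) ∩ Ioc 0 (0 + 1) ⊆ φ ⁻¹' t := by
      rintro r ⟨hr, hr'⟩
      have h3 : ((AddCircle.equivIoc (1 : ℝ) 0 (r : AddCircle (1 : ℝ)) :
          Ioc (0 : ℝ) (0 + 1)) : ℝ) ∈ φ ⁻¹' t := hr
      rw [AddCircle.equivIoc_coe_eq hr'] at h3
      exact h3
    refine h1.trans (le_antisymm ?_ zero_le)
    exact (measure_mono h2).trans hT.le
  · refine le_antisymm ?_ ?_
    · exact (Cardinal.mk_set_le C).trans mk_SS.le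
    · have hb : ∀ f : ℕ → Bool, 1 / 4 * cantorFunction (1 / 4) f + 1 / 4 ∈ Ioc (0 : ℝ) (0 + 1) := by
        intro f
        have h0 : 0 ≤ cantorFunction (1 / 4) f :=
          tsum_nonneg fun n => cantorFunctionAux_nonneg (by norm_num)
        have h1 : cantorFunction (1 / 4) f ≤ cantorFunction (1 / 4) (fun _ => true) :=
          cantorFunction_le (by norm_num) (by norm_num) (fun n _ => rfl)
        have h2 : cantorFunction (1 / 4) (fun _ => true) =
            1 + 1 / 4 * cantorFunction (1 / 4) (fun _ => true) := by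
          have := cantorFunction_succ (c := 1 / 4) (fun _ => true) (by norm_num) (by norm_num)
          simpa using this
        constructor <;> linarith
      let ψ : (ℕ → Bool) → C := fun f =>
        ⟨((1 / 4 * cantorFunction (1 / 4) f + 1 / 4 : ℝ) : AddCircle (1 : ℝ)), by
          show ((AddCircle.equivIoc (1 : ℝ) 0
            ((1 / 4 * cantorFunction (1 / 4) f + 1 / 4 : ℝ) : AddCircle (1 : ℝ)) :
            Ioc (0 : ℝ) (0 + 1)) : ℝ) ∈ φ ⁻¹' t
          rw [AddCircle.equivIoc_coe_eq (hb f)]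
          apply hKt
          refine ⟨f, ?_⟩
          show cantorFunction (1 / 4) f = (1 / 4 * cantorFunction (1 / 4) f + 1 / 4 - 1 / 4) * 4
          ring⟩
      have hψ : Function.Injective ψ := by
        intro f g h
        have h1 : ((1 / 4 * cantorFunction (1 / 4) f + 1 / 4 : ℝ) : AddCircle (1 : ℝ)) =
            ((1 / 4 * cantorFunction (1 / 4) g + 1 / 4 : ℝ) : AddCircle (1 : ℝ)) :=
          congrArg Subtype.val h
        have h2 := congrArg (fun x => ((AddCircle.equivIoc (1 : ℝ) 0 x :
          Ioc (0 : ℝ) (0 + 1)) : ℝ)) h1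
        rw [AddCircle.equivIoc_coe_eq (hb f), AddCircle.equivIoc_coe_eq (hb g)] at h2
        have h3 : cantorFunction (1 / 4) f = cantorFunction (1 / 4) g := by
          have h4 : 1 / 4 * cantorFunction (1 / 4) f + 1 / 4 =
            1 / 4 * cantorFunction (1 / 4) g + 1 / 4 := h2
          linarith
        exact cantorFunction_injective (by norm_num) (by norm_num) h3
      have h5 := Cardinal.mk_le_of_injective hψ
      rwa [Cardinal.mk_arrow, Cardinal.lift_id, Cardinal.lift_id, Cardinal.mk_bool,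
        Cardinal.mk_nat, Cardinal.two_power_aleph0] at h5

end Pool.Agent.Q297.IF
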