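import Pool.Agent.Q297.IF.Card

/-!
The lifting of the group of interval exchanges with flips.
-/

namespace Pool.Agent.Q297.IF

open MeasureTheory Filter Topology Set Cardinal

/-- The filter of punctured neighbourhoods. -/
def om (x : SS) : Filter SS := 𝓝[≠] x

theorem om_neBot (x : SS) : (om x).NeBot := by
  by_contra h
  rw [not_neBot] at h
  have h1 : IsOpen ({x} : Set SS) := isOpen_singleton_iff_punctured_nhds x |>.mpr h
  have h2 : 0 < volume ({x} : Set SS) := h1.measure_pos volume (singleton_nonempty x)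
  rw [vol_singleton] at h2
  exact lt_irrefl _ h2

theorem om_inj : Function.Injective om := by
  intro x y h
  have h1 : (𝓝 x ⊓ 𝓝 y).NeBot := by
    refine (om_neBot x).mono (le_inf nhdsWithin_le_nhds ?_)
    rw [h]
    exact nhdsWithin_le_nhds
  exact eq_of_nhds_neBot h1

theorem map_om {f : Equiv.Perm SS} {x : SS} (h : LocIso f x) :
    Filter.map f (om x) = om (f x) := by
  obtain ⟨s, c, h⟩ := (locIso_iff f x).mp h
  have h1 : Filter.map f (om x) = Filter.map (tr s c) (om x) :=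
    Filter.map_congr (h.filter_mono nhdsWithin_le_nhds)
  rw [h1, h.eq_of_nhds]
  exact (tr s c).map_punctured_nhds_eq x

/-- The filters obtained from punctured neighbourhood filters by the action of the piecewise
isometric permutations. -/
def OmSet : Set (Filter SS) := {G | ∃ f : IETrep, ∃ x : SS, G = Filter.map (f : Equiv.Perm SS) (om x)}

theorem om_mem (x : SS) : om x ∈ OmSet := ⟨1, x, by simp⟩

theorem map_mem (f : IETrep) {G : Filter SS} (hG : G ∈ OmSet) :
    Filter.map (f : Equiv.Perm SS) G ∈ OmSet := by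
  obtain ⟨g, x, rfl⟩ := hG
  refine ⟨f * g, x, ?_⟩
  rw [Filter.map_map]
  rfl

theorem map_inv_map (f : Equiv.Perm SS) (G : Filter SS) :
    Filter.map (f⁻¹ : Equiv.Perm SS) (Filter.map f G) = G := by
  rw [Filter.map_map]
  have : (f⁻¹ : Equiv.Perm SS) ∘ f = id := by
    funext x
    simp
  rw [this, Filter.map_id]

/-- The action on `OmSet`. -/
def act : IETrep →* Equiv.Perm OmSet where
  toFun f :=
    { toFun := fun G => ⟨Filter.map (f : Equiv.Perm SS) G.1, map_mem f G.2⟩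
      invFun := fun G => ⟨Filter.map ((f⁻¹ : IETrep) : Equiv.Perm SS) G.1, map_mem f⁻¹ G.2⟩
      left_inv := fun G => Subtype.ext (map_inv_map _ _)
      right_inv := fun G => Subtype.ext (by
        have := map_inv_map ((f : Equiv.Perm SS)⁻¹) G.1
        rw [inv_inv] at this
        exact this) }
  map_one' := by
    ext G : 2
    show Filter.map _ G.1 = G.1
    exact Filter.map_id
  map_mul' f g := by
    ext G : 2
    show Filter.map _ G.1 = Filter.map _ (Filter.map _ G.1)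
    rw [Filter.map_map]
    rfl

theorem act_apply (f : IETrep) (G : OmSet) :
    ((act f) G).1 = Filter.map (f : Equiv.Perm SS) G.1 := rfl

theorem act_fin {f : IETrep} (hf : (f : Equiv.Perm SS) ∈ FinS) : act f = 1 := by
  ext G : 2
  show Filter.map (f : Equiv.Perm SS) G.1 = G.1
  obtain ⟨g, x, hG⟩ := G.2
  have h1 : G.1 ≤ cofinite := by
    rw [hG]
    have h2 : om x ≤ cofinite := nhdsNE_le_cofinite x
    exact (Filter.map_mono h2).trans (g : Equiv.Perm SS).injective.tendsto_cofinite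
  have h3 : (f : Equiv.Perm SS) =ᶠ[G.1] id := by
    have h4 : {y | (f : Equiv.Perm SS) y ≠ y}ᶜ ∈ (cofinite : Filter SS) :=
      Set.Finite.compl_mem_cofinite hf
    filter_upwards [h1 h4] with y hy
    by_contra h5
    exact hy h5
  rw [Filter.map_congr h3, Filter.map_id]

theorem mk_Om : #OmSet ≤ 𝔠 := by
  have h1 : Function.Surjective (fun p : IETrep × SS =>
      (⟨Filter.map (p.1 : Equiv.Perm SS) (om p.2), ⟨p.1, p.2, rfl⟩⟩ : OmSet)) := by
    rintro ⟨G, f, x, rfl⟩
    exact ⟨(f, x), rfl⟩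
  refine (Cardinal.mk_le_of_surjective h1).trans ?_
  rw [Cardinal.mk_prod]
  simp only [Cardinal.lift_id]
  rw [mk_SS]
  calc #IETrep * 𝔠 ≤ 𝔠 * 𝔠 := mul_le_mul_left mk_iet _
    _ = 𝔠 := Cardinal.continuum_mul_self

/-- The point filter as an element of `OmSet`. -/
def omm (x : SS) : OmSet := ⟨om x, om_mem x⟩

theorem omm_inj : Function.Injective omm := fun _ _ h => om_inj (congrArg Subtype.val h)

theorem exists_theta (C : Set SS) (hC : #C = 𝔠) :
    ∃ Θ : OmSet ≃ SS, ∀ x, x ∉ C → Θ (omm x) = x := by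
  classical
  have h1 : #↥((omm '' Cᶜ)ᶜ) = 𝔠 := by
    refine le_antisymm ((Cardinal.mk_set_le _).trans mk_Om) ?_
    rw [← hC]
    refine Cardinal.mk_le_of_injective (f := fun x : C => (⟨omm x, ?_⟩ : ↥((omm '' Cᶜ)ᶜ))) ?_
    · rintro ⟨y, hy, hyx⟩
      have := omm_inj hyx
      rw [this] at hy
      exact hy x.2
    · intro x y h
      exact Subtype.ext (omm_inj (congrArg Subtype.val h))
  have h2 : #↥(Cᶜᶜ) = 𝔠 := by rw [compl_compl, hC]
  obtain ⟨e2⟩ := Cardinal.eq.mp (h1.trans h2.symm)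
  let e1 : ↥(Cᶜ) ≃ ↥(omm '' Cᶜ) := Equiv.Set.image omm Cᶜ omm_inj
  refine ⟨(Equiv.Set.sumCompl (omm '' Cᶜ)).symm.trans
    ((Equiv.sumCongr e1.symm e2).trans (Equiv.Set.sumCompl Cᶜ)), ?_⟩
  intro x hx
  have hm : omm x ∈ omm '' Cᶜ := ⟨x, hx, rfl⟩
  simp only [Equiv.trans_apply]
  rw [Equiv.Set.sumCompl_symm_apply_of_mem hm]
  have h3 : e1.symm ⟨omm x, hm⟩ = ⟨x, hx⟩ := by
    rw [Equiv.symm_apply_eq]
    rfl
  simp only [Equiv.sumCongr_apply, Sum.map_inl, h3]
  rfl

/-- The lifting on representatives. -/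
noncomputable def sg0 (Θ : OmSet ≃ SS) : IETrep →* Equiv.Perm SS :=
  (Equiv.permCongrHom Θ).toMonoidHom.comp act

theorem sg0_apply (Θ : OmSet ≃ SS) (f : IETrep) (x : SS) :
    (sg0 Θ f) x = Θ ((act f) (Θ.symm x)) := rfl

theorem sg0_ae {Θ : OmSet ≃ SS} {C : Set SS} (hC : volume C = 0)
    (hΘ : ∀ x, x ∉ C → Θ (omm x) = x) (f : IETrep) :
    ∀ᵐ x ∂(volume : Measure SS), (sg0 Θ f) x = (f : Equiv.Perm SS) x := by
  obtain ⟨F, hF, hf⟩ := f.2
  have hpre : volume ((f : Equiv.Perm SS) ⁻¹' C) = 0 :=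
    ((iet_MP f.2) C (NullMeasurableSet.of_null hC)).2.trans hC
  have hnull : volume (F ∪ C ∪ (f : Equiv.Perm SS) ⁻¹' C) = 0 :=
    measure_union_null (measure_union_null (vol_finite hF) hC) hpre
  refine measure_mono_null ?_ hnull
  intro x hx
  by_contra hc
  simp only [mem_union, not_or] at hc
  obtain ⟨⟨hxF, hxC⟩, hxp⟩ := hc
  apply hx
  show (sg0 Θ f) x = (f : Equiv.Perm SS) x
  rw [sg0_apply]
  have h1 : Θ.symm x = omm x := by
    rw [Equiv.symm_apply_eq, hΘ x hxC]
  have h2 : (act f) (omm x) = omm ((f : Equiv.Perm SS) x) := Subtype.ext (map_om (hf x hxF))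
  rw [h1, h2, hΘ _ hxp]

theorem sg0_mem {Θ : OmSet ≃ SS} {C : Set SS} (hC : volume C = 0)
    (hΘ : ∀ x, x ∉ C → Θ (omm x) = x) (f : IETrep) : sg0 Θ f ∈ Ghat := by
  constructor
  · refine (iet_MP f.2).congr ?_
    filter_upwards [sg0_ae hC hΘ f] with x hx
    exact hx.symm
  · have h1 : (sg0 Θ f).symm = sg0 Θ f⁻¹ := by
      rw [map_inv]
      rfl
    rw [h1]
    refine (iet_MP (f⁻¹).2).congr ?_
    filter_upwards [sg0_ae hC hΘ f⁻¹] with x hx
    exact hx.symm

/-- The lifting of the group of interval exchanges with flips. -/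
theorem exists_lift : ∃ σ : (IETrep ⧸ FinS.subgroupOf IETrep) →* Ghat, ∀ f : IETrep,
    ∀ᵐ x ∂(volume : Measure SS),
      ((σ (QuotientGroup.mk f) : Ghat) : Equiv.Perm SS) x = (f : Equiv.Perm SS) x := by
  obtain ⟨C, hC, hCc⟩ := exists_null
  obtain ⟨Θ, hΘ⟩ := exists_theta C hCc
  let s1 : IETrep →* Ghat := (sg0 Θ).codRestrict Ghat (sg0_mem hC hΘ)
  have hker : ∀ f : IETrep, f ∈ FinS.subgroupOf IETrep → s1 f = 1 := by
    intro f hf
    have h1 : act f = 1 := act_fin hf
    refine Subtype.ext ?_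
    show (Equiv.permCongrHom Θ) (act f) = 1
    rw [h1, map_one]
  refine ⟨QuotientGroup.lift (FinS.subgroupOf IETrep) s1 hker, fun f => ?_⟩
  exact sg0_ae hC hΘ f

end Pool.Agent.Q297.IF
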