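import Pool.Agent.Q297.IF.Basic

/-!
Piecewise isometric permutations of the circle preserve Lebesgue measure.
-/

namespace Pool.Agent.Q297.IF

open MeasureTheory Filter Topology Set

theorem vol_singleton (x : SS) : volume ({x} : Set SS) = 0 := by
  have h : Fact ((0 : ℝ) < 1) := ⟨one_pos⟩
  have h1 := AddCircle.volume_closedBall (1 : ℝ) (x := x) 0
  rw [Metric.closedBall_zero] at h1
  simpa using h1

theorem vol_finite {F : Set SS} (hF : F.Finite) : volume F = 0 := by
  have h1 : F = ⋃ x ∈ F, {x} := by simp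
  rw [h1]
  exact (measure_biUnion_null_iff hF.countable).mpr fun x _ => vol_singleton x

theorem exists_cover {f : Equiv.Perm SS} {F : Set SS} (hf : ∀ x, x ∉ F → LocIso f x) :
    ∃ (U : ℕ → Set SS) (s : ℕ → Bool) (c : ℕ → SS), (∀ n, IsOpen (U n)) ∧
      (∀ n, ∀ y ∈ U n, f y = tr (s n) (c n) y) ∧ Fᶜ ⊆ ⋃ n, U n := by
  have h0 : ∀ x : SS, ∃ (V : Set SS) (s : Bool) (c : SS), IsOpen V ∧
      (∀ y ∈ V, f y = tr s c y) ∧ (x ∉ F → x ∈ V) := by
    intro x
    by_cases hx : x ∈ F
    · exact ⟨∅, true, 0, isOpen_empty, fun y hy => absurd hy (by simp), fun h => absurd hx h⟩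
    · obtain ⟨s, c, h⟩ := (locIso_iff f x).mp (hf x hx)
      obtain ⟨V, hV, hVo, hxV⟩ := eventually_nhds_iff.mp h
      exact ⟨V, s, c, hVo, hV, fun _ => hxV⟩
  choose V s c hV h1 h2 using h0
  obtain ⟨T, hT, hTU⟩ := TopologicalSpace.isOpen_iUnion_countable V hV
  obtain ⟨e, he⟩ := (hT.insert (0 : SS)).exists_eq_range (insert_nonempty _ _)
  refine ⟨fun n => V (e n), fun n => s (e n), fun n => c (e n), fun n => hV _,
    fun n => h1 _, ?_⟩
  intro x hx
  have h3 : x ∈ ⋃ i, V i := mem_iUnion.mpr ⟨x, h2 x hx⟩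
  rw [← hTU] at h3
  simp only [mem_iUnion] at h3
  obtain ⟨i, hi, hxi⟩ := h3
  have h4 : i ∈ range e := by
    rw [← he]
    exact mem_insert_of_mem _ hi
  obtain ⟨n, rfl⟩ := h4
  exact mem_iUnion.mpr ⟨n, hxi⟩

theorem iet_measurable {f : Equiv.Perm SS} (hf : f ∈ IETrep) : Measurable f := by
  obtain ⟨F, hF, hf⟩ := hf
  obtain ⟨U, s, c, hU, h1, h2⟩ := exists_cover hf
  intro B hB
  have h3 : f ⁻¹' B = (⋃ n, (U n ∩ (tr (s n) (c n)) ⁻¹' B)) ∪ (f ⁻¹' B ∩ (⋃ n, U n)ᶜ) := by
    ext x
    constructor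
    · intro hx
      by_cases hxU : x ∈ ⋃ n, U n
      · left
        obtain ⟨n, hn⟩ := mem_iUnion.mp hxU
        refine mem_iUnion.mpr ⟨n, hn, ?_⟩
        show tr (s n) (c n) x ∈ B
        rw [← h1 n x hn]
        exact hx
      · exact Or.inr ⟨hx, hxU⟩
    · rintro (hx | hx)
      · obtain ⟨n, hn, hx⟩ := mem_iUnion.mp hx
        show f x ∈ B
        rw [h1 n x hn]
        exact hx
      · exact hx.1
  rw [h3]
  refine (MeasurableSet.iUnion fun n => ?_).union ?_
  · exact (hU n).measurableSet.inter ((tr (s n) (c n)).continuous.measurable hB)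
  · refine (hF.subset ?_).measurableSet
    intro x hx
    by_contra hxF
    exact hx.2 (h2 hxF)

theorem iet_le {f : Equiv.Perm SS} (hf : f ∈ IETrep) {B : Set SS} (hB : MeasurableSet B) :
    volume (f ⁻¹' B) ≤ volume B := by
  obtain ⟨F, hF, hf⟩ := hf
  obtain ⟨U, s, c, hU, h1, h2⟩ := exists_cover hf
  have hE : ∀ n, MeasurableSet (disjointed U n) :=
    fun n => MeasurableSet.disjointed (fun i => (hU i).measurableSet) n
  have hEU : ∀ n, disjointed U n ⊆ U n := fun n => disjointed_subset U n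
  have h3 : f ⁻¹' B ⊆ (⋃ n, (disjointed U n ∩ (tr (s n) (c n)) ⁻¹' B)) ∪ F := by
    intro x hx
    by_cases hxF : x ∈ F
    · exact Or.inr hxF
    · left
      have h4 := h2 hxF
      rw [← iUnion_disjointed] at h4
      obtain ⟨n, hn⟩ := mem_iUnion.mp h4
      refine mem_iUnion.mpr ⟨n, hn, ?_⟩
      show tr (s n) (c n) x ∈ B
      rw [← h1 n x (hEU n hn)]
      exact hx
  have himg : ∀ n, (tr (s n) (c n)) '' (disjointed U n) = f '' (disjointed U n) := by
    intro n
    refine image_congr fun x hx => ?_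
    exact (h1 n x (hEU n hx)).symm
  have hpre : ∀ n, disjointed U n ∩ (tr (s n) (c n)) ⁻¹' B =
      (tr (s n) (c n)) ⁻¹' ((tr (s n) (c n)) '' (disjointed U n) ∩ B) := by
    intro n
    rw [preimage_inter, preimage_image_eq _ (tr (s n) (c n)).injective]
  have hmeas : ∀ n, MeasurableSet ((tr (s n) (c n)) '' (disjointed U n)) := by
    intro n
    exact (tr (s n) (c n)).measurableEmbedding.measurableSet_image.mpr (hE n)
  have hdisj : Pairwise fun i j => Disjoint
      ((tr (s i) (c i)) '' (disjointed U i) ∩ B) ((tr (s j) (c j)) '' (disjointed U j) ∩ B) := by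
    intro i j hij
    refine Disjoint.mono inter_subset_left inter_subset_left ?_
    rw [himg, himg]
    exact (disjoint_image_iff f.injective).mpr (disjoint_disjointed U hij)
  calc volume (f ⁻¹' B)
      ≤ volume ((⋃ n, (disjointed U n ∩ (tr (s n) (c n)) ⁻¹' B)) ∪ F) := measure_mono h3
    _ ≤ volume (⋃ n, (disjointed U n ∩ (tr (s n) (c n)) ⁻¹' B)) + volume F :=
        measure_union_le _ _
    _ = volume (⋃ n, (disjointed U n ∩ (tr (s n) (c n)) ⁻¹' B)) := by
        rw [vol_finite hF, add_zero]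
    _ ≤ ∑' n, volume (disjointed U n ∩ (tr (s n) (c n)) ⁻¹' B) := measure_iUnion_le _
    _ = ∑' n, volume ((tr (s n) (c n)) '' (disjointed U n) ∩ B) := by
        refine tsum_congr fun n => ?_
        rw [hpre, (tr_mp (s n) (c n)).measure_preimage
          ((hmeas n).inter hB).nullMeasurableSet]
    _ = volume (⋃ n, ((tr (s n) (c n)) '' (disjointed U n) ∩ B)) :=
        (measure_iUnion hdisj fun n => (hmeas n).inter hB).symm
    _ ≤ volume B := measure_mono (iUnion_subset fun n => inter_subset_right)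

theorem iet_mp {f : Equiv.Perm SS} (hf : f ∈ IETrep) : MeasurePreserving f volume volume := by
  refine ⟨iet_measurable hf, ?_⟩
  ext B hB
  rw [Measure.map_apply (iet_measurable hf) hB]
  refine le_antisymm (iet_le hf hB) ?_
  have h1 := iet_le (IETrep.inv_mem hf) (iet_measurable hf hB)
  have h2 : (f⁻¹ : Equiv.Perm SS) ⁻¹' (f ⁻¹' B) = B := by
    ext x
    show f (f.symm x) ∈ B ↔ x ∈ B
    rw [Equiv.apply_symm_apply]
  rw [h2] at h1
  exact h1

theorem iet_MP {f : Equiv.Perm SS} (hf : f ∈ IETrep) : MP f := fun _ hA =>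
  ⟨hA.preimage (iet_mp hf).quasiMeasurePreserving, (iet_mp hf).measure_preimage hA⟩

/-- Every representative of an interval exchange with flips lies in `Ghat`. -/
theorem iet_le_Ghat : IETrep ≤ Ghat := fun _ hf => ⟨iet_MP hf, iet_MP (IETrep.inv_mem hf)⟩

end Pool.Agent.Q297.IF
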