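import Pool.Agent.Q297.IF.Main

/-!
The group of measure classes of measure preserving permutations and the embedding of the
group of interval exchanges with flips.
-/

namespace Pool.Agent.Q297.IF

open MeasureTheory Filter Topology Set

/-- The group of interval exchanges with flips: the piecewise isometric permutations modulo
the finitely supported ones. -/
def IETg : Type := IETrep ⧸ FinS.subgroupOf IETrep

instance instGroupIETg : Group IETg := QuotientGroup.Quotient.group (FinS.subgroupOf IETrep)

/-- The class of a piecewise isometric permutation. -/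
def cls : IETrep →* IETg := QuotientGroup.mk' (FinS.subgroupOf IETrep)

/-- The normal subgroup of `Ghat` of the elements that are the identity almost everywhere. -/
def NN : Subgroup Ghat where
  carrier := {f | ∀ᵐ x ∂(volume : Measure SS), (f : Equiv.Perm SS) x = x}
  mul_mem' := by
    intro f g hf hg
    have h1 : volume {x | (f : Equiv.Perm SS) x ≠ x} = 0 := hf
    have h2 := (g.2.1 _ (NullMeasurableSet.of_null h1)).2.trans h1
    have h3 : ∀ᵐ x ∂(volume : Measure SS),
        (f : Equiv.Perm SS) ((g : Equiv.Perm SS) x) = (g : Equiv.Perm SS) x := h2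
    have h4 : ∀ᵐ x ∂(volume : Measure SS), (g : Equiv.Perm SS) x = x := hg
    show ∀ᵐ x ∂(volume : Measure SS), (f : Equiv.Perm SS) ((g : Equiv.Perm SS) x) = x
    filter_upwards [h3, h4] with x h5 h6
    rw [h5, h6]
  one_mem' := by
    show ∀ᵐ x ∂(volume : Measure SS), x = x
    exact Filter.Eventually.of_forall fun _ => rfl
  inv_mem' := by
    intro f hf
    have h1 : volume {x | (f : Equiv.Perm SS) x ≠ x} = 0 := hf
    have h2 := (f.2.2 _ (NullMeasurableSet.of_null h1)).2.trans h1
    have h3 : ∀ᵐ x ∂(volume : Measure SS),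
        (f : Equiv.Perm SS) ((f : Equiv.Perm SS).symm x) = (f : Equiv.Perm SS).symm x := h2
    show ∀ᵐ x ∂(volume : Measure SS), (f : Equiv.Perm SS).symm x = x
    filter_upwards [h3] with x h5
    rw [← h5, Equiv.apply_symm_apply]

instance : NN.Normal where
  conj_mem := by
    intro f hf g
    have h1 : volume {x | (f : Equiv.Perm SS) x ≠ x} = 0 := hf
    have h2 := (g.2.2 _ (NullMeasurableSet.of_null h1)).2.trans h1
    have h3 : ∀ᵐ x ∂(volume : Measure SS),
        (f : Equiv.Perm SS) ((g : Equiv.Perm SS).symm x) = (g : Equiv.Perm SS).symm x := h2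
    show ∀ᵐ x ∂(volume : Measure SS),
      (g : Equiv.Perm SS) ((f : Equiv.Perm SS) ((g : Equiv.Perm SS).symm x)) = x
    filter_upwards [h3] with x h5
    rw [h5, Equiv.apply_symm_apply]

/-- The group `G = Ghat / N`. -/
def GG : Type := Ghat ⧸ NN

instance instGroupGG : Group GG := QuotientGroup.Quotient.group NN

/-- The quotient map `p : Ghat → G`. -/
def pr : Ghat →* GG := QuotientGroup.mk' NN

/-- Finitely supported piecewise isometric permutations are the identity almost everywhere. -/
theorem fin_le_NN : FinS.subgroupOf IETrep ≤ NN.comap (Subgroup.inclusion iet_le_Ghat) := by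
  intro f hf
  have h1 : {x | (f : Equiv.Perm SS) x ≠ x}.Finite := hf
  have h2 : volume {x | (f : Equiv.Perm SS) x ≠ x} = 0 := vol_finite h1
  exact h2

/-- The map from the group of interval exchanges with flips to `G = Ghat / NN`, sending the
class of a piecewise isometric permutation to its class modulo null sets. -/
def incl : IETg →* GG :=
  QuotientGroup.map (FinS.subgroupOf IETrep) NN (Subgroup.inclusion iet_le_Ghat) fin_le_NN

theorem incl_cls (f : IETrep) : incl (cls f) = pr ⟨f, iet_le_Ghat f.2⟩ := rfl

theorem cls_surj (g : IETg) : ∃ f, cls f = g := QuotientGroup.mk_surjective g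

theorem pr_eq_one (f : Ghat) : pr f = 1 ↔ f ∈ NN := QuotientGroup.eq_one_iff f

theorem cls_eq_one (f : IETrep) : cls f = 1 ↔ f ∈ FinS.subgroupOf IETrep :=
  QuotientGroup.eq_one_iff f

/-- The group of interval exchanges with flips is identified with a subgroup of `G`. -/
theorem incl_injective : Function.Injective incl := by
  rw [injective_iff_map_eq_one]
  intro g hg
  obtain ⟨f, rfl⟩ := cls_surj g
  rw [incl_cls, pr_eq_one] at hg
  rw [cls_eq_one]
  have h1 : ∀ᵐ x ∂(volume : Measure SS), (f : Equiv.Perm SS) x = x := hg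
  obtain ⟨F, hF, hf⟩ := f.2
  show {x | (f : Equiv.Perm SS) x ≠ x}.Finite
  refine hF.subset ?_
  intro x hx
  by_contra hxF
  apply hx
  have hdense : Dense {y | (f : Equiv.Perm SS) y = y} := Measure.dense_of_ae h1
  have hne : (𝓝[{y | (f : Equiv.Perm SS) y = y}] x).NeBot :=
    mem_closure_iff_nhdsWithin_neBot.mp (hdense x)
  have hc : Tendsto (f : Equiv.Perm SS) (𝓝 x) (𝓝 ((f : Equiv.Perm SS) x)) :=
    (hf x hxF).continuousAt
  have h2 : (f : Equiv.Perm SS) =ᶠ[𝓝[{y | (f : Equiv.Perm SS) y = y}] x] id := by
    filter_upwards [self_mem_nhdsWithin] with y hy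
    exact hy
  exact tendsto_nhds_unique ((hc.mono_left nhdsWithin_le_nhds).congr' h2)
    (tendsto_id.mono_left nhdsWithin_le_nhds)

/-- The splitting. -/
theorem exists_splitting : ∃ σ : IETg →* Ghat, ∀ g, pr (σ g) = incl g := by
  obtain ⟨σ, hσ⟩ := exists_lift
  refine ⟨(σ : IETg →* Ghat), fun g => ?_⟩
  obtain ⟨f, rfl⟩ := cls_surj g
  rw [incl_cls]
  have h1 := hσ f
  have h2 : pr (((σ : IETg →* Ghat) (cls f))⁻¹ * (⟨f, iet_le_Ghat f.2⟩ : Ghat)) = 1 := by
    rw [pr_eq_one]
    show ∀ᵐ x ∂(volume : Measure SS),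
      ((σ (QuotientGroup.mk f) : Ghat) : Equiv.Perm SS).symm ((f : Equiv.Perm SS) x) = x
    filter_upwards [h1] with x hx
    rw [← hx, Equiv.symm_apply_apply]
  rw [map_mul, map_inv] at h2
  exact inv_mul_eq_one.mp h2

end Pool.Agent.Q297.IF
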